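import Pool.Agent.Helper48_LPY.Stmts
import Pool.Agent.Helper48_LPY.Basic

/-!
# LPY.HOLD: exponential moments of sums of local functions
-/

set_option autoImplicit false

namespace Pool.Agent.LPY.H27

open Pool.Agent.LPY Finset

section indep

variable {I α : Type} [Fintype I] [DecidableEq I] [Fintype α]

open Classical in
/-- exchange the coordinates outside `S` -/
noncomputable def mixE (S : Set I) : ((I → α) × (I → α)) ≃ ((I → α) × (I → α)) where
  toFun p := (fun i => if i ∈ S then p.1 i else p.2 i, fun i => if i ∈ S then p.2 i else p.1 i)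
  invFun p := (fun i => if i ∈ S then p.1 i else p.2 i, fun i => if i ∈ S then p.2 i else p.1 i)
  left_inv p := by
    ext i
    · by_cases h : i ∈ S <;> simp [h]
    · by_cases h : i ∈ S <;> simp [h]
  right_inv p := by
    ext i
    · by_cases h : i ∈ S <;> simp [h]
    · by_cases h : i ∈ S <;> simp [h]

theorem sum_mul_indep (S : Set I) (g h : (I → α) → ℝ)
    (hg : ∀ ω ω', (∀ i ∈ S, ω i = ω' i) → g ω = g ω')
    (hh : ∀ ω ω', (∀ i, i ∉ S → ω i = ω' i) → h ω = h ω') :
    (∑ ω : I → α, g ω * h ω) * (Fintype.card (I → α) : ℝ) = (∑ ω, g ω) * ∑ ω, h ω := by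
  have h1 : (∑ ω : I → α, g ω) * ∑ ω, h ω = ∑ p : (I → α) × (I → α), g p.1 * h p.2 := by
    rw [Finset.sum_mul_sum, ← Finset.univ_product_univ, Finset.sum_product]
  have h2 : ∑ p : (I → α) × (I → α), g p.1 * h p.2 =
      ∑ p : (I → α) × (I → α), g p.1 * h p.1 := by
    refine Fintype.sum_equiv (mixE S) _ _ ?_
    intro p
    have e1 : g p.1 = g (mixE S p).1 := by
      apply hg
      intro i hi
      simp [mixE, hi]
    have e2 : h p.2 = h (mixE S p).1 := by
      apply hh
      intro i hi
      simp [mixE, hi]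
    rw [e1, e2]
  rw [h1, h2, ← Finset.univ_product_univ, Finset.sum_product]
  simp only [Finset.sum_const, Finset.card_univ, nsmul_eq_mul]
  rw [← Finset.mul_sum, mul_comm]

theorem sum_prod_le {Φ : Type} [DecidableEq Φ] (S : Φ → Set I) (g : Φ → (I → α) → ℝ) (b : Φ → ℝ)
    (hpos : 0 < Fintype.card (I → α)) (hg0 : ∀ f ω, 0 ≤ g f ω) (hb : ∀ f, 0 ≤ b f)
    (hloc : ∀ f ω ω', (∀ i ∈ S f, ω i = ω' i) → g f ω = g f ω')
    (hle : ∀ f, ∑ ω : I → α, g f ω ≤ Fintype.card (I → α) * b f) (T : Finset Φ)
    (hd : ∀ f ∈ T, ∀ f' ∈ T, f ≠ f' → Disjoint (S f) (S f')) :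
    ∑ ω : I → α, ∏ f ∈ T, g f ω ≤ Fintype.card (I → α) * ∏ f ∈ T, b f := by
  induction T using Finset.induction_on with
  | empty => simp
  | insert f T hf ih =>
    have ih' := ih (fun a ha a' ha' => hd a (Finset.mem_insert_of_mem ha) a'
      (Finset.mem_insert_of_mem ha'))
    have hN : (0 : ℝ) < (Fintype.card (I → α) : ℝ) := by exact_mod_cast hpos
    have key := sum_mul_indep (α := α) (S f) (g f) (fun ω => ∏ a ∈ T, g a ω) (hloc f) (by
      intro ω ω' h
      refine Finset.prod_congr rfl ?_
      intro a ha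
      apply hloc
      intro i hi
      apply h
      intro hif
      have := hd f (Finset.mem_insert_self _ _) a (Finset.mem_insert_of_mem ha)
        (fun h => hf (h ▸ ha))
      exact (Set.disjoint_left.mp this hif) hi)
    have e1 : ∀ ω : I → α, ∏ a ∈ insert f T, g a ω = g f ω * ∏ a ∈ T, g a ω := by
      intro ω
      rw [Finset.prod_insert hf]
    rw [Finset.prod_insert hf]
    simp only [e1]
    have h1 : (∑ ω : I → α, g f ω * ∏ a ∈ T, g a ω) * (Fintype.card (I → α) : ℝ) ≤
        (Fintype.card (I → α) * (b f * ∏ a ∈ T, b a)) * (Fintype.card (I → α) : ℝ) := by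
      rw [key]
      have h2 : (0 : ℝ) ≤ ∑ ω : I → α, ∏ a ∈ T, g a ω :=
        Finset.sum_nonneg (fun ω _ => Finset.prod_nonneg (fun a _ => hg0 a ω))
      have h3 : (0 : ℝ) ≤ Fintype.card (I → α) * b f := mul_nonneg hN.le (hb f)
      calc (∑ ω, g f ω) * ∑ ω, ∏ a ∈ T, g a ω
          ≤ (Fintype.card (I → α) * b f) * (Fintype.card (I → α) * ∏ a ∈ T, b a) :=
            mul_le_mul (hle f) ih' h2 h3
        _ = _ := by ring
    exact le_of_mul_le_mul_right h1 hN

end indep

/-- greedy colouring with eight colours -/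
theorem exists_col {Φ : Type} [Fintype Φ] (R : Φ → Φ → Prop) (hsym : ∀ f f', R f f' → R f' f)
    (hdeg : ∀ f, {f' | R f f'}.ncard ≤ 7) :
    ∃ c : Φ → Fin 8, ∀ f f', f ≠ f' → R f f' → c f ≠ c f' := by
  classical
  have main : ∀ s : Finset Φ, ∃ c : Φ → Fin 8, ∀ f ∈ s, ∀ f' ∈ s, f ≠ f' → R f f' → c f ≠ c f' := by
    intro s
    induction s using Finset.induction_on with
    | empty => exact ⟨fun _ => 0, by simp⟩
    | insert f s hf ih =>
      obtain ⟨c, hc⟩ := ih
      have h1 : ((Finset.univ.filter (fun f' => R f f')).image c).card ≤ 7 := by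
        refine le_trans Finset.card_image_le ?_
        have := hdeg f
        rw [Set.ncard_eq_toFinset_card'] at this
        simpa using this
      obtain ⟨x, hx⟩ : ∃ x : Fin 8, x ∉ (Finset.univ.filter (fun f' => R f f')).image c := by
        by_contra hcon
        push Not at hcon
        have h2 : (Finset.univ : Finset (Fin 8)) ⊆ (Finset.univ.filter (fun f' => R f f')).image c :=
          fun x _ => hcon x
        have h3 := Finset.card_le_card h2
        simp only [Finset.card_univ, Fintype.card_fin] at h3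
        omega
      refine ⟨Function.update c f x, ?_⟩
      intro a ha b hb hab hR
      rw [Finset.mem_insert] at ha hb
      rcases ha with rfl | ha
      · rcases hb with rfl | hb
        · exact absurd rfl hab
        · rw [Function.update_self, Function.update_of_ne (fun h => hab h.symm)]
          intro h
          apply hx
          rw [Finset.mem_image]
          exact ⟨b, by simpa using hR, h.symm⟩
      · rcases hb with rfl | hb
        · rw [Function.update_self, Function.update_of_ne hab]
          intro h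
          apply hx
          rw [Finset.mem_image]
          exact ⟨a, by simpa using hsym _ _ hR, h⟩
        · have haf : a ≠ f := fun h => hf (h ▸ ha)
          have hbf : b ≠ f := fun h => hf (h ▸ hb)
          rw [Function.update_of_ne haf, Function.update_of_ne hbf]
          exact hc a ha b hb hab hR
  obtain ⟨c, hc⟩ := main Finset.univ
  exact ⟨c, fun f f' => hc f (Finset.mem_univ _) f' (Finset.mem_univ _)⟩

theorem hold : HoldStmt := by
  intro I α Φ _ _ _ _ _ S X m hloc hdeg hmom
  classical
  obtain ⟨c, hc⟩ := exists_col (fun f f' => f' ≠ f ∧ ¬ Disjoint (S f) (S f'))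
    (fun f f' h => ⟨h.1.symm, fun h' => h.2 h'.symm⟩) hdeg
  have hdisj : ∀ x : Fin 8, ∀ f ∈ Finset.univ.filter (fun f => c f = x),
      ∀ f' ∈ Finset.univ.filter (fun f => c f = x), f ≠ f' → Disjoint (S f) (S f') := by
    intro x f hf f' hf' hne
    by_contra hcon
    simp only [Finset.mem_filter, Finset.mem_univ, true_and] at hf hf'
    exact hc f f' hne ⟨fun h => hne h.symm, hcon⟩ (hf.trans hf'.symm)
  have hpos : 0 < Fintype.card (I → α) := Fintype.card_pos
  have hN : (0 : ℝ) < (Fintype.card (I → α) : ℝ) := by exact_mod_cast hpos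
  -- moments of a colour class
  have hcol : ∀ x : Fin 8, ∑ ω : I → α,
      Real.exp (8 * ∑ f ∈ Finset.univ.filter (fun f => c f = x), (X f ω - m f)) ≤
      Fintype.card (I → α) := by
    intro x
    have h1 := sum_prod_le (α := α) S (fun f ω => Real.exp (8 * (X f ω - m f))) (fun _ => 1) hpos
      (fun f ω => (Real.exp_pos _).le) (fun _ => zero_le_one)
      (fun f ω ω' h => by simp only [hloc f ω ω' h])
      (fun f => by
        have h2 := hmom f
        have e1 : ∀ ω : I → α, Real.exp (8 * (X f ω - m f)) =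
            Real.exp (8 * X f ω) * Real.exp (-(8 * m f)) := by
          intro ω
          rw [← Real.exp_add]
          congr 1
          ring
        simp only [e1]
        rw [← Finset.sum_mul]
        have h3 := mul_le_mul_of_nonneg_right h2 (Real.exp_pos (-(8 * m f))).le
        rw [mul_assoc, ← Real.exp_add] at h3
        simpa using h3)
      (Finset.univ.filter (fun f => c f = x)) (hdisj x)
    simp only [Finset.prod_const_one, mul_one] at h1
    refine le_trans (le_of_eq ?_) h1
    refine Finset.sum_congr rfl ?_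
    intro ω _
    rw [← Real.exp_sum, Finset.mul_sum]
  -- convexity
  have hconv : ∀ ω : I → α, Real.exp (∑ f, (X f ω - m f)) ≤
      ∑ x : Fin 8, (1 / 8 : ℝ) *
        Real.exp (8 * ∑ f ∈ Finset.univ.filter (fun f => c f = x), (X f ω - m f)) := by
    intro ω
    have h1 := convexOn_exp.map_sum_le (t := (Finset.univ : Finset (Fin 8)))
      (w := fun _ => (1 / 8 : ℝ))
      (p := fun x => 8 * ∑ f ∈ Finset.univ.filter (fun f => c f = x), (X f ω - m f))
      (fun _ _ => by norm_num) (by simp) (fun _ _ => Set.mem_univ _)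
    simp only [smul_eq_mul] at h1
    refine le_trans (le_of_eq ?_) h1
    congr 1
    have e1 : ∀ x : Fin 8, (1 / 8 : ℝ) * (8 * ∑ f ∈ Finset.univ.filter (fun f => c f = x),
        (X f ω - m f)) = ∑ f ∈ Finset.univ.filter (fun f => c f = x), (X f ω - m f) := by
      intro x; ring
    simp only [e1]
    rw [Finset.sum_fiberwise]
  have htot : ∑ ω : I → α, Real.exp (∑ f, (X f ω - m f)) ≤ Fintype.card (I → α) := by
    calc ∑ ω : I → α, Real.exp (∑ f, (X f ω - m f))
        ≤ ∑ ω : I → α, ∑ x : Fin 8, (1 / 8 : ℝ) *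
          Real.exp (8 * ∑ f ∈ Finset.univ.filter (fun f => c f = x), (X f ω - m f)) :=
          Finset.sum_le_sum (fun ω _ => hconv ω)
      _ = ∑ x : Fin 8, (1 / 8 : ℝ) * ∑ ω : I → α,
          Real.exp (8 * ∑ f ∈ Finset.univ.filter (fun f => c f = x), (X f ω - m f)) := by
          rw [Finset.sum_comm]
          refine Finset.sum_congr rfl ?_
          intro x _
          rw [Finset.mul_sum]
      _ ≤ ∑ x : Fin 8, (1 / 8 : ℝ) * Fintype.card (I → α) :=
          Finset.sum_le_sum (fun x _ => mul_le_mul_of_nonneg_left (hcol x) (by norm_num))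
      _ = Fintype.card (I → α) := by
          simp only [Finset.sum_const, Finset.card_univ, Fintype.card_fin, nsmul_eq_mul]
          push_cast
          ring
  have e1 : ∀ ω : I → α, Real.exp (∑ f, X f ω) =
      Real.exp (∑ f, (X f ω - m f)) * Real.exp (∑ f, m f) := by
    intro ω
    rw [← Real.exp_add, Finset.sum_sub_distrib]
    congr 1
    ring
  simp only [e1]
  rw [← Finset.sum_mul]
  exact mul_le_mul_of_nonneg_right htot (Real.exp_pos _).le

end Pool.Agent.LPY.H27
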